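import Pool.Agent.N373.TG.Geo

/-!
# Project TG: translations of the affine space
-/

set_option autoImplicit false

namespace Pool.Agent.N891.TG

open Pool.Agent.N373.TG

section

variable {A H : Type} [Fintype A] {q : ℕ} {d : A → A → H} {L : H → H → H → Prop}

/-- `(x, x')` and `(z, z')` are opposite sides of a parallelogram, in the direction `e` -/
structure Par (d : A → A → H) (e : H) (x x' z z' : A) : Prop where
  ax : x ≠ x'
  dx : d x x' = e
  az : z ≠ z'
  dz : d z z' = e
  ne : x ≠ z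
  de : d x z ≠ e
  pr : d x' z' = d x z

/-- two points on different lines of direction `e` -/
def Off (d : A → A → H) (e : H) (x z : A) : Prop := x ≠ z ∧ d x z ≠ e

theorem three (D : Dir q d L) {e f g h k : H} (hef : e ≠ f) (hg : L e f g) (hh : L e f h)
    (hk : L e f k) : L g h k := by
  by_cases hge : g = e
  · rw [hge]
    exact D.L_trans e f h k hef hh hk
  · exact D.L_trans g e h k hge (D.L_swap _ _ _ (D.L_trans e f g h hef hg hh))
      (D.L_swap _ _ _ (D.L_trans e f g k hef hg hk))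

theorem Lefe (D : Dir q d L) (e f : H) : L e f e := D.L_swap' _ _ _ (D.L_refl e f)

theorem Leff (D : Dir q d L) (e f : H) : L e f f := D.L_swap _ _ _ (Lefe D f e)

variable {e : H} {x x' z z' v v' w w' u a b : A}

theorem Off.symm (D : Dir q d L) (h : Off d e x z) : Off d e z x :=
  ⟨h.1.symm, by rw [D.symm]; exact h.2⟩

theorem Par.off (h : Par d e x x' z z') : Off d e x z := ⟨h.ne, h.de⟩

/-- points on one line -/
theorem on_line (D : Dir q d L) (hxz : ¬ Off d e x z) (h : Off d e x v) : Off d e z v := by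
  unfold Off at hxz
  by_cases hx : x = z
  · exact hx ▸ h
  · have h1 : d x z = e := by
      by_contra hc
      exact hxz ⟨hx, hc⟩
    refine ⟨fun hc => h.2 (hc ▸ h1), fun hc => ?_⟩
    have hzv : z ≠ v := fun hc => h.2 (hc ▸ h1)
    have h2 := D.tri_same z x v (Ne.symm hx) h.1 hzv (by rw [D.symm z x, h1, hc])
    rw [D.symm z x, h1] at h2
    exact h.2 h2

theorem Par.ne' (D : Dir q d L) (h : Par d e x x' z z') : x' ≠ z' := by
  intro hc
  have h1 : d x' x = d x' z := by
    rw [D.symm x' x, h.dx, hc, D.symm z' z, h.dz]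
  have hxz : x' ≠ z := fun h2 => h.az (h2.symm.trans hc)
  have h2 := D.tri_same x' x z h.ax.symm h.ne hxz h1
  rw [D.symm x' x, h.dx] at h2
  exact h.de h2

theorem Par.symm (D : Dir q d L) (h : Par d e x x' z z') : Par d e z z' x x' :=
  ⟨h.az, h.dz, h.ax, h.dx, h.ne.symm, by rw [D.symm]; exact h.de, by
    rw [D.symm z' x', D.symm z x]; exact h.pr⟩

/-- Step 1, existence -/
theorem par_ex (D : Dir q d L) (hx : x ≠ x') (hd : d x x' = e) (h : Off d e x z) :
    ∃ z', Par d e x x' z z' := by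
  obtain ⟨hxz, hne⟩ := h
  have hzx' : x' ≠ z := fun hc => hne (hc ▸ hd)
  have h1 : L e (d x' z) (d x z) := hd ▸ D.tri x x' z hx hzx' hxz
  have h2 : d x' z ≠ d x z := by
    intro hc
    have := D.tri_same z x x' hxz.symm hx hzx'.symm (by rw [D.symm z x, D.symm z x', hc])
    rw [hd, D.symm z x] at this
    exact hne this.symm
  have h3 : d x' z ≠ e := by
    intro hc
    have := D.tri_same x' x z hx.symm hxz hzx' (by rw [D.symm x' x, hd, hc])
    rw [D.symm x' x, hd] at this
    exact hne this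
  obtain ⟨z', hz1, hz2, hz3, hz4⟩ := D.compl x' z (d x z) e hzx' hne h2.symm h3.symm
    (D.L_swap' _ _ _ (D.L_swap _ _ _ h1))
  exact ⟨z', hx, hd, hz2.symm, hz4, hxz, hne, hz3⟩

/-- Step 1, uniqueness -/
theorem par_un (D : Dir q d L) (h1 : Par d e x x' z v) (h2 : Par d e x x' z w) : v = w := by
  by_contra hne
  have k1 := D.tri_same x' v w (h1.ne' D) hne (h2.ne' D) (by rw [h1.pr, h2.pr])
  have k2 := D.tri_same z v w h1.az hne h2.az (by rw [h1.dz, h2.dz])
  rw [h1.pr] at k1
  rw [h1.dz] at k2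
  exact h1.de (k1.symm.trans k2)

/-- Step 2 -/
theorem par_step (D : Dir q d L) (h1 : Par d e x x' z z') (h2 : Par d e x x' v v')
    (hL : ¬ L e (d x z) (d x v)) : Par d e z z' v v' := by
  have hfh : d x z ≠ d x v := fun hc => hL (hc ▸ Leff D _ _)
  have hzv : z ≠ v := fun hc => hfh (by rw [hc])
  have hzv' : z' ≠ v' := by
    intro hc
    apply hfh
    rw [← h1.pr, ← h2.pr, hc]
  have t1 : L (d x z) (d z v) (d x v) := D.tri x z v h1.ne hzv h2.ne
  have t2 : L (d x z) (d z' v') (d x v) := by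
    have := D.tri x' z' v' (h1.ne' D) hzv' (h2.ne' D)
    rwa [h1.pr, h2.pr] at this
  have hm : d z v ≠ e := fun hc => hL (D.L_swap _ _ _ (hc ▸ t1))
  have hm' : d z' v' ≠ e := fun hc => hL (D.L_swap _ _ _ (hc ▸ t2))
  have hzv'' : z ≠ v' := by
    intro hc
    have := h2.dz
    rw [← hc, D.symm] at this
    exact hm this
  have t3 : L (d z v) e (d z v') := h2.dz ▸ D.tri z v v' hzv h2.az hzv''
  have hn : d z v' ≠ e := by
    intro hc
    have := D.tri_same v' z v hzv''.symm hzv h2.az.symm (by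
      rw [D.symm v' z, hc, D.symm v' v, h2.dz])
    rw [D.symm v' z, hc] at this
    exact hm this
  have t4 : L e (d z' v') (d z v') := by
    have := D.tri z z' v' h1.az hzv' hzv''
    rwa [h1.dz] at this
  refine ⟨h1.az, h1.dz, h2.az, h2.dz, hzv, hm, ?_⟩
  by_contra hmm
  -- all on the line of `m`, `m'`
  have s1 : L e (d z v) (d z' v') :=
    D.L_trans e (d z v') _ _ hn.symm (D.L_swap' _ _ _ (D.L_swap _ _ _ t3)) (D.L_swap' _ _ _ t4)
  have s2 : L (d x z) (d z v) (d z' v') :=
    D.L_trans _ (d x v) _ _ hfh (D.L_swap' _ _ _ t1) (D.L_swap' _ _ _ t2)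
  have s3 : L (d x v) (d z v) (d z' v') :=
    D.L_trans _ (d x z) _ _ hfh.symm (D.L_swap _ _ _ (D.L_swap' _ _ _ t1))
      (D.L_swap _ _ _ (D.L_swap' _ _ _ t2))
  have r : ∀ {p m m' : H}, L p m m' → L m m' p := fun h => D.L_swap' _ _ _ (D.L_swap _ _ _ h)
  exact hL (three D (Ne.symm hmm) (r s1) (r s2) (r s3))

theorem exists_dir (D : Dir q d L) (x : A) (f : H) : ∃ y, x ≠ y ∧ d x y = f := by
  have h1 := D.cnt x f
  have h2 := D.two_le
  have h3 : Nonempty {y // y ≠ x ∧ d x y = f} := by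
    rw [← not_isEmpty_iff]
    intro h4
    have : Nat.card {y // y ≠ x ∧ d x y = f} = 0 := by
      haveI := h4
      exact Nat.card_of_isEmpty
    omega
  obtain ⟨⟨y, hy1, hy2⟩⟩ := h3
  exact ⟨y, hy1.symm, hy2⟩

/-- Step 3 -/
theorem par_trans (D : Dir q d L) (h1 : Par d e x x' v v') (h2 : Par d e v v' z z')
    (h3 : Off d e x z) : Par d e x x' z z' := by
  have h1' := h1.symm D
  by_cases hL : L e (d v x) (d v z)
  · obtain ⟨k, hk⟩ := D.L_non e (d v x)
    obtain ⟨u, hvu, hu⟩ := exists_dir D v k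
    have hke : k ≠ e := fun hc => hk (hc ▸ Lefe D _ _)
    obtain ⟨u', hu'⟩ := par_ex D h2.ax h2.dx (z := u) ⟨hvu, by rw [hu]; exact hke⟩
    have p1 := par_step D h1' hu' (by rw [hu]; exact hk)
    have hk2 : ¬ L e (d v z) (d v u) := by
      rw [hu]
      intro hc
      exact hk (D.L_trans e (d v z) _ _ h2.de.symm (D.L_swap' _ _ _ hL) hc)
    have p2 := par_step D h2 hu' hk2
    have q1 := p1.symm D
    have q2 := p2.symm D
    refine par_step D q1 q2 ?_
    intro hc
    -- `s = d x z` is on the line of `e` and `d v x`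
    have hs1 : L e (d v x) (d x z) := by
      have t := D.tri v x z h1'.ne h3.1 h2.ne
      by_cases hpr : d v x = d v z
      · have := D.tri_same v x z h1'.ne h3.1 h2.ne hpr
        rw [this]
        exact Leff D _ _
      · -- line of `d v x` and `d v z`
        have k1 : L (d v x) (d v z) e := D.L_swap' _ _ _ (D.L_swap _ _ _ hL)
        have k2 : L (d v x) (d v z) (d x z) := D.L_swap' _ _ _ t
        exact D.L_swap _ _ _ (D.L_trans _ _ _ _ hpr k1 k2)
    have hs2 : L e (d u x) (d x z) := by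
      have t := D.tri u x z q1.ne h3.1 q2.ne
      by_cases hpr : d u x = d u z
      · have := D.tri_same u x z q1.ne h3.1 q2.ne hpr
        rw [this]
        exact Leff D _ _
      · have k1 : L (d u x) (d u z) e := D.L_swap' _ _ _ (D.L_swap _ _ _ hc)
        have k2 : L (d u x) (d u z) (d x z) := D.L_swap' _ _ _ t
        exact D.L_swap _ _ _ (D.L_trans _ _ _ _ hpr k1 k2)
    have hs3 : L e (d v x) (d u x) := D.L_trans e (d x z) _ _ h3.2.symm (D.L_swap' _ _ _ hs1)
      (D.L_swap' _ _ _ hs2)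
    have t := D.tri v x u h1'.ne q1.ne.symm hvu
    have hne : d v x ≠ d x u := by
      intro hc2
      have := D.tri_same x v u h1'.ne.symm hvu q1.ne.symm (by rw [D.symm x v]; exact hc2)
      rw [hu, D.symm x v] at this
      exact hk (this ▸ Leff D _ _)
    rw [D.symm u x] at hs3
    rw [hu] at t
    exact hk (D.L_swap _ _ _ (D.L_trans _ _ _ _ hne (D.L_swap' _ _ _ (D.L_swap _ _ _ hs3)) t))
  · exact par_step D h1' h2 hL

/-- there are points off the lines of `a` and `b` -/
theorem exists_off (D : Dir q d L) (e : H) (a b : A) : ∃ v, Off d e a v ∧ Off d e b v := by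
  by_cases hab : Off d e a b
  · obtain ⟨k, hk⟩ := D.L_non e (d a b)
    obtain ⟨u, hau, hu⟩ := exists_dir D a k
    have hke : k ≠ e := fun hc => hk (hc ▸ Lefe D _ _)
    refine ⟨u, ⟨hau, by rw [hu]; exact hke⟩, fun hc => ?_, fun hc => ?_⟩
    · rw [← hc] at hu
      exact hk (hu ▸ Leff D _ _)
    · have hbu : b ≠ u := by
        intro hc2
        rw [← hc2] at hu
        exact hk (hu ▸ Leff D _ _)
      have t := D.tri a b u hab.1 hbu hau
      rw [hc, hu] at t
      exact hk (D.L_swap _ _ _ t)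
  · obtain ⟨k, hk⟩ := D.L_non e e
    obtain ⟨u, hau, hu⟩ := exists_dir D a k
    have hke : k ≠ e := fun hc => hk (D.L_refl _ _)
    have h1 : Off d e a u := ⟨hau, by rw [hu]; exact hke⟩
    exact ⟨u, h1, on_line D hab h1⟩

/-- the translation moves `(x, x')` to `(z, z')` -/
def Q (d : A → A → H) (e : H) (x x' z z' : A) : Prop :=
  ∃ v v', Par d e x x' v v' ∧ Par d e v v' z z'

theorem Q_ex (D : Dir q d L) (hx : x ≠ x') (hd : d x x' = e) (z : A) : ∃ z', Q d e x x' z z' := by
  obtain ⟨v, h1, h2⟩ := exists_off D e x z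
  obtain ⟨v', hv⟩ := par_ex D hx hd h1
  obtain ⟨z', hz⟩ := par_ex D hv.az hv.dz (h2.symm D)
  exact ⟨z', v, v', hv, hz⟩

theorem Q_un (D : Dir q d L) {z1 z2 : A} (h1 : Q d e x x' z z1) (h2 : Q d e x x' z z2) :
    z1 = z2 := by
  obtain ⟨v, v', p1, p2⟩ := h1
  obtain ⟨w, w', r1, r2⟩ := h2
  by_cases hxz : Off d e x z
  · exact par_un D (par_trans D p1 p2 hxz) (par_trans D r1 r2 hxz)
  · obtain ⟨u, hu1, hu2⟩ := exists_off D e x v
    by_cases hvw : Off d e v w
    · have s1 := par_trans D (p1.symm D) r1 hvw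
      exact par_un D p2 (par_trans D s1 r2 p2.off)
    · obtain ⟨u', hu'⟩ := par_ex D p1.ax p1.dx hu1
      have hwu := on_line D hvw hu2
      have hzu := on_line D hxz hu1
      have s1 := par_trans D (hu'.symm D) p1 (hu2.symm D)
      have s2 := par_trans D (hu'.symm D) r1 (hwu.symm D)
      exact par_un D (par_trans D s1 p2 (hzu.symm D)) (par_trans D s2 r2 (hzu.symm D))

/-- images of points on different lines -/
theorem Q_par (D : Dir q d L) (h1 : Q d e x x' z z') (h2 : Q d e x x' w w')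
    (h : Off d e z w) : Par d e z z' w w' := by
  have key : ∀ z z' w w', Q d e x x' z z' → Q d e x x' w w' → Off d e z w → Off d e x w →
      Par d e z z' w w' := by
    intro z z' w w' h1 h2 h hxw
    obtain ⟨v, v', p1, p2⟩ := h2
    have r := par_trans D p1 p2 hxw
    obtain ⟨z'', hz''⟩ := par_ex D r.az r.dz (h.symm D)
    have : z'' = z' := Q_un D ⟨w, w', r, hz''⟩ h1
    rw [← this]
    exact hz''.symm D
  by_cases hxw : Off d e x w
  · exact key z z' w w' h1 h2 h hxw
  · have hxz : Off d e x z := by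
      by_contra hc
      have : ¬ Off d e w x := fun hd => hxw (hd.symm D)
      exact hc (by
        have h5 := on_line D (x := w) (z := x) (v := z) this (h.symm D)
        exact h5)
    exact (key w w' z z' h2 h1 (h.symm D) hxz).symm D

/-- images of points on the same line -/
theorem Q_line (D : Dir q d L) (h1 : Q d e x x' z z') (h2 : Q d e x x' w w') (hzw : z ≠ w)
    (h : d z w = e) : z' ≠ w' ∧ d z' w' = e := by
  obtain ⟨v, hv1, hv2⟩ := exists_off D e x z
  have hx : x ≠ x' ∧ d x x' = e := by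
    obtain ⟨_, _, p, _⟩ := h1
    exact ⟨p.ax, p.dx⟩
  obtain ⟨v', hv⟩ := par_ex D hx.1 hx.2 hv1
  have hwv : Off d e w v := on_line D (fun hc => hc.2 h) hv2
  obtain ⟨z'', hz⟩ := par_ex D hv.az hv.dz (hv2.symm D)
  obtain ⟨w'', hw⟩ := par_ex D hv.az hv.dz (hwv.symm D)
  have e1 : z'' = z' := Q_un D ⟨v, v', hv, hz⟩ h1
  have e2 : w'' = w' := Q_un D ⟨v, v', hv, hw⟩ h2
  rw [e1] at hz
  rw [e2] at hw
  have hne : z' ≠ w' := by
    intro hc
    have k1 : d v z = d v w := by rw [← hz.pr, ← hw.pr, hc]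
    have k2 := D.tri_same v z w hz.ne hzw hw.ne k1
    rw [h] at k2
    exact hz.de k2.symm
  refine ⟨hne, ?_⟩
  by_cases hzw' : z' = w
  · rw [hzw']
    exact hw.dz
  · have k1 := D.tri_same z z' w hz.az hzw' hzw (by rw [hz.dz, h])
    rw [hz.dz] at k1
    have k2 := D.tri_same w z' w' (Ne.symm hzw') hne hw.az (by rw [D.symm w z', k1, hw.dz])
    rw [k2, D.symm w z', k1]

end

theorem trans : S_TRANS := by
  intro A H _ q d L D x y hxy
  classical
  choose τ hτ using fun z => Q_ex D hxy (rfl : d x y = d x y) z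
  have hd : ∀ z w, z ≠ w → τ z ≠ τ w ∧ d (τ z) (τ w) = d z w := by
    intro z w hzw
    by_cases h : d z w = d x y
    · obtain ⟨k1, k2⟩ := Q_line D (hτ z) (hτ w) hzw h
      exact ⟨k1, k2.trans h.symm⟩
    · have k := Q_par D (hτ z) (hτ w) ⟨hzw, h⟩
      exact ⟨k.ne' D, k.pr⟩
  have hinj : Function.Injective τ := by
    intro z w h
    by_contra hne
    exact (hd z w hne).1 h
  have hbij : Function.Bijective τ := Finite.injective_iff_bijective.1 hinj
  refine ⟨Equiv.ofBijective τ hbij, ⟨fun z w hzw => (hd z w hzw).2, Or.inr fun z => ?_⟩, ?_⟩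
  · obtain ⟨v, v', _, p⟩ := hτ z
    exact ⟨p.az.symm, p.dz⟩
  · obtain ⟨v, hv1, hv2⟩ := exists_off D (d x y) x x
    obtain ⟨v', hv⟩ := par_ex D hxy rfl hv1
    exact Q_un D (hτ x) ⟨v, v', hv, hv.symm D⟩

end Pool.Agent.N891.TG
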